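import Pool.Agent.N227.PJ.LBA

/-!
# Project PJ, part LB (helper227): from the lattice to the tuple

After the files of helper457 for cubics (project PP).
-/

set_option autoImplicit false
set_option linter.all false

open Polynomial Matrix
open scoped Classical

namespace Pool.Agent.N227.PJ

open Pool.Agent.N352.PJ

section irr

variable {k K L : Type} [Field k] [Field K] [Algebra k[X] K] [IsFractionRing k[X] K]
  [Field L] [Algebra K L] [Algebra k[X] L] [IsScalarTower k[X] K L] {g : ℕ} {f : k[X][X]} {θ : L}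

/-- `f` is the minimal polynomial -/
lemma irrK (h : IsGen g K f θ) : Irreducible (f.map (algebraMap k[X] K)) := by
  let pb : PowerBasis K L := ⟨θ, 2 * g + 1, h.basis, fun i => h.basis_apply i⟩
  have hdeg : (minpoly K θ).natDegree = 2 * g + 1 := pb.natDegree_minpoly
  have hint : IsIntegral K θ := pb.isIntegral_gen
  have hmon : (f.map (algebraMap k[X] K)).Monic := h.mon.map _
  have h0 : aeval θ (f.map (algebraMap k[X] K)) = 0 := by
    rw [aeval_map_algebraMap]
    exact h.root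
  have hd : minpoly K θ ∣ f.map (algebraMap k[X] K) := minpoly.dvd K θ h0
  have he : f.map (algebraMap k[X] K) = minpoly K θ :=
    Polynomial.eq_of_monic_of_dvd_of_natDegree_le (minpoly.monic hint) hmon hd (by
      rw [hdeg, h.mon.natDegree_map, h.deg])
  rw [he]
  exact minpoly.irreducible hint

lemma irrf (h : IsGen g K f θ) : Irreducible f :=
  (h.mon.irreducible_iff_irreducible_map_fraction_map (K := K)).2 (irrK h)

lemma theta_int (h : IsGen g K f θ) : IsIntegral k[X] θ := ⟨f, h.mon, h.root⟩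

end irr

/-- the core -/
theorem core (h1 : S_RED) (h2 : S_WT) (h3 : S_NW) (h4 : S_NRM) (h5 : S_CHI) (h6 : S_DET)
    (h7 : S_UNI) (h8 : S_GAP) (h9 : S_SQ)
    {k K L : Type} [Field k] [Finite k] [Field K] [Algebra k[X] K] [IsFractionRing k[X] K]
    [Field L] [Algebra K L] [Algebra k[X] L] [IsScalarTower k[X] K L] {g : ℕ} {f : k[X][X]} {θ : L}
    {N : ℕ} {S : Finset k[X]} {h : k[X] → k[X][X]} {r : k[X]} (hg : 1 ≤ g) (hk : (2 : k) ≠ 0)
    (hθ : IsGen g K f θ) (hr : GoodR g r) (hS : GoodS g S h) (hF : Fam g N r S h f)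
    (hI : ∀ x : L, IsIntegral k[X] x ↔ ∃ v : Fin (2 * g + 1) → k[X], Crd g θ v x) {α : L}
    {e : Fin (2 * g + 1) → L} (hα : α ≠ 0) (hsq : IsSquare (Algebra.norm K α)) (hns : ¬ IsSquare α)
    (hSD : SDn g k K e α) (hT : ∀ Q ∈ S, TV g Q θ e α) {E : Mt g k[X]}
    (hE : ∀ i, Crd g θ (E i) (e i)) {va : Fin (2 * g + 1) → k[X]} (hva : Crd g θ va α) :
    LBad g N S h f := by
  obtain ⟨G, hGu, hG⟩ := h7 g k K L f θ hθ hF.sq α e hα hSD
  have hG' : gm hθ.top α e = am K G := by
    ext i j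
    exact (hG i j).symm
  have hcm := cm_crd hθ hE
  have hE0 : E.det ≠ 0 := by
    intro h0
    apply li_cm hθ hSD.li
    rw [hcm, am_det, h0, map_zero]
  -- the determinant
  have hdet : algebraMap k[X] K G.det = (-1) ^ g * (algebraMap k[X] K E.det) ^ 2 /
      Algebra.norm K α := by
    have t1 := h6 g k K L f θ hθ α (am K E) hα
    rw [am_det] at t1
    rw [← t1, ← am_det, ← hG']
    congr 1
    ext i j
    rw [gm_apply, Matrix.of_apply]
    have t2 : ∀ i, e i = ∑ a, algebraMap K L (am K E i a) * θ ^ (a : ℕ) := fun i => by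
      rw [hE i]
      refine Finset.sum_congr rfl fun a _ => ?_
      rw [am_apply, ← IsScalarTower.algebraMap_apply]
    rw [← t2, ← t2]
  obtain ⟨ρ, hρ⟩ := hsq
  have hρ0 : ρ ≠ 0 := by
    rintro rfl
    rw [mul_zero] at hρ
    exact norm_ne hα hρ
  have hint : IsIntegral k[X] (algebraMap k[X] K E.det / ρ) := by
    refine IsIntegral.of_pow (n := 2) (by norm_num) ?_
    have e3 : (algebraMap k[X] K E.det / ρ) ^ 2 = algebraMap k[X] K ((-1) ^ g * G.det) := by
      rw [map_mul, map_pow, map_neg, map_one, hdet, hρ, ← mul_div_assoc, ← mul_assoc, ← mul_pow]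
      norm_num
      rw [div_pow, pow_two ρ]
    rw [e3]
    exact isIntegral_algebraMap
  obtain ⟨p, hp⟩ := IsIntegrallyClosed.isIntegral_iff.1 hint
  have hp2 : G.det = (-1) ^ g * p ^ 2 := by
    apply inj (k := k) (K := K)
    rw [map_mul, map_pow _ p, map_pow, map_neg, map_one, hp, hdet, hρ, div_pow, pow_two ρ,
      mul_div_assoc]
  have hpu : IsUnit (p ^ 2) := by
    rw [hp2] at hGu
    exact isUnit_of_mul_isUnit_right hGu
  obtain ⟨κ, hκ1, hκ⟩ := Polynomial.isUnit_iff.1 ((isUnit_pow_iff (two_ne_zero)).1 hpu)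
  have hκ0 : κ ≠ 0 := hκ1.ne_zero
  have hGdet : G.det = (-1) ^ g * C (κ ^ 2) := by
    rw [hp2, ← hκ, C_pow]
  -- the norm
  have hαint : IsIntegral k[X] α := (hI α).2 ⟨va, hva⟩
  obtain ⟨n, hn⟩ := IsIntegrallyClosed.isIntegral_iff.1 (Algebra.isIntegral_norm K hαint)
  have hEn : E.det ^ 2 = C (κ ^ 2) * n := by
    apply inj (k := k) (K := K)
    have t1 : algebraMap k[X] K E.det = algebraMap k[X] K p * ρ := by
      rw [hp]
      field_simp
    rw [map_pow, t1, map_mul, hn, hρ, C_pow, hκ, map_pow]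
    ring
  have hdegn : 2 * E.det.natDegree = n.natDegree := by
    have t := congrArg Polynomial.natDegree hEn
    rwa [Polynomial.natDegree_pow, Polynomial.natDegree_C_mul (pow_ne_zero 2 hκ0)] at t
  obtain ⟨d, hd⟩ : ∃ d : Fin (2 * g + 1) → ℕ, d = fun i : Fin (2 * g + 1) => 2 * N * (i : ℕ) :=
    ⟨_, rfl⟩
  have hnw : n.natDegree = (2 * g + 1) * wtn d va := by
    rw [hd]
    exact h3 g k L K f θ N r hθ hF.ht hr hF.inf α va n hα hva hn
  -- reduction
  obtain ⟨U, hU, hmono, hsum⟩ := h1 (2 * g + 1) k d E hE0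
  have hdl : d (Fin.last (2 * g)) = 4 * N * g := by
    rw [hd]
    simp only [Fin.val_last]
    ring
  have hdsum : ∑ j, d j = 2 * N * g * (2 * g + 1) := by
    rw [hd]
    simp only
    rw [← Finset.mul_sum]
    have t : ∑ i : Fin (2 * g + 1), (i : ℕ) = g * (2 * g + 1) := by
      rw [Fin.sum_univ_eq_sum_range (fun i => i)]
      have t1 := Finset.sum_range_id_mul_two (2 * g + 1)
      have t2 : (2 * g + 1) * (2 * g + 1 - 1) = (g * (2 * g + 1)) * 2 := by
        rw [Nat.add_sub_cancel]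
        ring
      omega
    rw [t]
    ring
  rw [hdsum] at hsum
  obtain ⟨e', he'⟩ : ∃ e' : Fin (2 * g + 1) → L, e' = actK (am K U) e := ⟨_, rfl⟩
  obtain ⟨w, hw⟩ : ∃ w : Fin (2 * g + 1) → ℕ, ∀ i, w i = wtn d ((U * E) i) := ⟨_, fun _ => rfl⟩
  have hcm' : cm hθ e' = am K (U * E) := by rw [he', cm_actK, hcm, am_mul]
  have hE' : ∀ i, Crd g θ ((U * E) i) (e' i) := crd_cm hθ hcm'
  have hUdet0 : U.det ≠ 0 := hU.ne_zero
  have hUE0 : (cm hθ e').det ≠ 0 := by
    rw [hcm', am_det, Matrix.det_mul]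
    intro h0
    have := (map_eq_zero_iff _ (inj (k := k) (K := K))).1 h0
    exact mul_ne_zero hUdet0 hE0 this
  have he'0 : ∀ i, e' i ≠ 0 := by
    intro i h0
    apply hUE0
    refine Matrix.det_eq_zero_of_row_eq_zero i fun j => ?_
    unfold cm
    rw [h0, map_zero]
  have hθi : IsIntegral k[X] θ := theta_int hθ
  have hint' : ∀ i j, IsIntegral k[X] (e' i * e' j / α) := by
    rw [he']
    exact int_act U hSD.int
  choose V hV using fun i j => (hI _).1 (hint' i j)
  choose V₁ hV₁ using fun i j => (hI _).1 (hθi.mul (hint' i j))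
  have hG₂' : gm hθ.top α e' = am K (U * G * Uᵀ) := by
    rw [he']
    exact gm_am _ α U hG'
  obtain ⟨H₂, hH₂⟩ : ∃ H₂, H₂ = U * G * Uᵀ := ⟨_, rfl⟩
  rw [← hH₂] at hG₂'
  obtain ⟨H₁, hH₁⟩ : ∃ H₁ : Mt g k[X], ∀ i j, H₁ i j = V₁ i j (Fin.last (2 * g)) :=
    ⟨fun i j => V₁ i j (Fin.last (2 * g)), fun _ _ => rfl⟩
  have hG₁' : gm (tt hθ) α e' = am K H₁ := by
    ext i j
    rw [gm_apply, tt_apply, top_eq, crd_co hθ (hV₁ i j), am_apply, hH₁]
  have hV2 : ∀ i j, V i j (Fin.last (2 * g)) = H₂ i j := by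
    intro i j
    apply inj (k := k) (K := K)
    rw [← crd_co hθ (hV i j)]
    exact congrFun (congrFun hG₂' i) j
  have hwt : ∀ i j, wtn d va + wtn d (V i j) = w i + w j := by
    intro i j
    have hei : ∀ i, IsIntegral k[X] (e' i) := fun i => (hI _).2 ⟨_, hE' i⟩
    obtain ⟨W, hW⟩ := (hI _).1 ((hei i).mul (hei j))
    have t1 := h2 g k L K f θ N r hθ hF.ht hr hF.inf (e' i) (e' j) _ _ W (he'0 i) (he'0 j)
      (hE' i) (hE' j) hW
    have e1 : α * (e' i * e' j / α) = e' i * e' j := by field_simp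
    have t2 := h2 g k L K f θ N r hθ hF.ht hr hF.inf α (e' i * e' j / α) va (V i j) W hα
      (div_ne_zero (mul_ne_zero (he'0 i) (he'0 j)) hα) hva (hV i j) (by rw [e1]; exact hW)
    rw [← hd] at t1 t2
    rw [hw, hw]
    omega
  -- the weight of `θ`
  have hθ0 : θ ≠ 0 := by
    intro h0
    have t1 := co_pow hθ ⟨1, by omega⟩ ⟨1, by omega⟩
    rw [if_pos rfl] at t1
    simp only [pow_one] at t1
    exact zero_ne_one (((congrArg (co hθ ⟨1, by omega⟩) h0).trans (map_zero _)).symm.trans t1)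
  obtain ⟨vt, hvt⟩ : ∃ vt : Fin (2 * g + 1) → k[X], ∀ j, vt j = if (j : ℕ) = 1 then 1 else 0 :=
    ⟨_, fun _ => rfl⟩
  have hcθ : Crd g θ vt θ := by
    refine crd_of_co hθ fun i => ?_
    have t1 := co_pow hθ i ⟨1, by omega⟩
    simp only [pow_one] at t1
    rw [t1, hvt]
    by_cases hi : (i : ℕ) = 1
    · rw [if_pos hi, if_pos (Fin.ext hi.symm), map_one]
    · rw [if_neg hi, if_neg (fun h' => hi (by rw [← h'])), map_zero]
  have hwθ : wtn d vt ≤ 2 * N := by
    unfold wtn
    refine Finset.sup_le fun j _ => ?_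
    rw [hvt]
    by_cases hj : (j : ℕ) = 1
    · rw [if_pos hj, if_neg one_ne_zero, natDegree_one, hd]
      simp only [hj]
      omega
    · rw [if_neg hj, if_pos rfl]
      exact Nat.zero_le _
  have hwt1 : ∀ i j, wtn d va + wtn d (V₁ i j) ≤ 2 * N + w i + w j := by
    intro i j
    have t1 := h2 g k L K f θ N r hθ hF.ht hr hF.inf θ (e' i * e' j / α) vt (V i j) (V₁ i j) hθ0
      (div_ne_zero (mul_ne_zero (he'0 i) (he'0 j)) hα) hcθ (hV i j) (hV₁ i j)
    rw [← hd] at t1
    have t2 := hwt i j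
    omega
  have heq : 2 * E.det.natDegree = (2 * g + 1) * wtn d va := hdegn.trans hnw
  obtain ⟨u, hu⟩ : ∃ u, wtn d va = 2 * u := by
    refine ⟨E.det.natDegree - g * wtn d va, ?_⟩
    have t1 : (2 * g + 1) * wtn d va = 2 * (g * wtn d va) + wtn d va := by ring
    omega
  have hEd : E.det.natDegree = (2 * g + 1) * u := by
    rw [hu] at heq
    have t1 : (2 * g + 1) * (2 * u) = 2 * ((2 * g + 1) * u) := by ring
    omega
  have hsumw : ∑ i, w i = (2 * g + 1) * u + 2 * N * g * (2 * g + 1) := by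
    simp only [hw]
    rw [← hEd]
    exact hsum
  obtain ⟨w', hw'⟩ : ∃ w' : Fin (2 * g + 1) → ℤ, ∀ i, w' i = (w i : ℤ) - u - 2 * N * g :=
    ⟨_, fun _ => rfl⟩
  have hb2 : ∀ i j, DB (w' i + w' j) (H₂ i j) := by
    intro i j
    by_cases h0 : H₂ i j = 0
    · exact Or.inl h0
    · refine Or.inr ?_
      have t1 := le_wt d (V i j) (Fin.last (2 * g)) (by rw [hV2]; exact h0)
      rw [hV2, hdl] at t1
      have t2 := hwt i j
      have t3 : (((H₂ i j).natDegree + 4 * N * g : ℕ) : ℤ) ≤ (wtn d (V i j) : ℤ) := by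
        exact_mod_cast t1
      have t4 : ((wtn d va : ℕ) : ℤ) + wtn d (V i j) = w i + w j := by exact_mod_cast t2
      have t5 : ((wtn d va : ℕ) : ℤ) = 2 * u := by exact_mod_cast hu
      push_cast at t3
      rw [hw', hw']
      linarith
  have hb1 : ∀ i j, DB (w' i + w' j + 2 * N) (H₁ i j) := by
    intro i j
    by_cases h0 : H₁ i j = 0
    · exact Or.inl h0
    · refine Or.inr ?_
      have t1 := le_wt d (V₁ i j) (Fin.last (2 * g)) (by rw [← hH₁]; exact h0)
      rw [← hH₁, hdl] at t1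
      have t2 := hwt1 i j
      have t3 : (((H₁ i j).natDegree + 4 * N * g : ℕ) : ℤ) ≤ (wtn d (V₁ i j) : ℤ) := by
        exact_mod_cast t1
      have t4 : ((wtn d va : ℕ) : ℤ) + wtn d (V₁ i j) ≤ 2 * N + w i + w j := by exact_mod_cast t2
      have t5 : ((wtn d va : ℕ) : ℤ) = 2 * u := by exact_mod_cast hu
      push_cast at t3
      rw [hw', hw']
      linarith
  have hwmono : Monotone w' := by
    intro i j hij
    rw [hw', hw']
    have t1 := hmono hij
    simp only at t1
    rw [← hw, ← hw] at t1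
    have t2 : (w i : ℤ) ≤ w j := by exact_mod_cast t1
    linarith
  have hwsum : ∑ i, w' i = 0 := by
    simp only [hw', Finset.sum_sub_distrib, Finset.sum_const, Finset.card_univ, Fintype.card_fin,
      nsmul_eq_mul]
    have t1 : (∑ i, (w i : ℤ)) = (2 * g + 1) * u + 2 * N * g * (2 * g + 1) := by
      exact_mod_cast hsumw
    rw [t1]
    push_cast
    ring
  -- the normal form
  obtain ⟨c, hc1, hc2⟩ := Polynomial.isUnit_iff.1 hU
  have hc0 : c ≠ 0 := hc1.ne_zero
  have hsym : H₂.IsSymm := by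
    apply am_inj (K := K)
    rw [am_transpose, ← hG₂', gm_symm]
  have hdetH : H₂.det = (-1) ^ g * C ((κ * c) ^ 2) := by
    rw [hH₂, Matrix.det_mul, Matrix.det_mul, Matrix.det_transpose, hGdet, ← hc2]
    simp only [C_mul, C_pow]
    ring
  obtain ⟨hTyp, V', hV', hVG, hVd⟩ := h4 g k hk H₂ w' (κ * c) hsym (mul_ne_zero hκ0 hc0) hdetH
    hwmono hwsum hb2
  obtain ⟨Γ, hΓ⟩ : ∃ Γ, Γ = V' * H₁ * V'ᵀ := ⟨_, rfl⟩
  have hΓd : ∀ i j, DB (w' i + w' j + 2 * N) (Γ i j) := by
    intro i j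
    rw [hΓ, Matrix.mul_apply]
    refine DB.sum _ _ fun l _ => ?_
    rw [Matrix.mul_apply, Matrix.transpose_apply, Finset.sum_mul]
    refine DB.sum _ _ fun p _ => ?_
    have t1 : DB (w' i - w' p) (V' i p) := hVd i p
    have t2 : DB (w' j - w' l) (V' j l) := hVd j l
    exact ((t1.mul (hb1 p l)).mul t2).congr (by ring)
  obtain ⟨ε, hε⟩ : ∃ ε : Fin (2 * g + 1) → L, ε = actK (am K V') e' := ⟨_, rfl⟩
  have hg1 : gm (tt hθ) α ε = am K Γ := by
    rw [hε, hΓ]
    exact gm_am _ α V' hG₁'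
  have hg2 : gm hθ.top α ε = Jm g K := by
    rw [hε, ← am_J (k := k) K g, ← hVG]
    exact gm_am _ α V' hG₂'
  have hg2' : ∀ i j, hθ.top (ε i * ε j / α) = Jm g K i j := fun i j =>
    congrFun (congrFun hg2 i) j
  have hg1' : ∀ i j, hθ.top (θ * (ε i * ε j) / α) = algebraMap k[X] K (Γ i j) := fun i j => by
    have t1 : gm (tt hθ) α ε i j = am K Γ i j := congrFun (congrFun hg1 i) j
    rw [gm_apply, tt_apply, am_apply] at t1
    rw [← t1, mul_div_assoc]
  have hεdet : (cm hθ ε).det ≠ 0 := by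
    rw [hε, cm_actK, Matrix.det_mul, am_det]
    refine mul_ne_zero ?_ hUE0
    rw [Ne, map_eq_zero_iff _ (inj (k := k) (K := K))]
    exact hV'.ne_zero
  have hεli : LinearIndependent K ε := li_of_cm hθ hεdet
  have hof : (Matrix.of fun i j => hθ.top (θ * (ε i * ε j) / α) : Mt g K) = am K Γ := by
    ext i j
    rw [Matrix.of_apply, hg1', am_apply]
  obtain ⟨hchi, hform⟩ := h5 g k K L f θ hθ α ε hα hεli hg2'
  rw [hof] at hchi hform
  have hchp : chp Γ = f := by
    apply Polynomial.map_injective _ (inj (k := k) (K := K))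
    rw [← am_chp, hchi]
  have hΓs : Γ.IsSymm := by
    apply am_inj (K := K)
    rw [am_transpose, ← hg1, gm_symm]
  have hΓsK : (am K Γ).IsSymm := by
    have := congrArg (am K) hΓs
    rwa [am_transpose] at this
  have hirr : Irreducible (chp (am K Γ)) := by
    rw [hchi]
    exact irrK hθ
  have hdeg0 : ∀ a b, Γ a b ≠ 0 → 0 ≤ w' a + w' b + 2 * N := fun a b hab => by
    have t := (hΓd a b).resolve_left hab
    have : (0 : ℤ) ≤ ((Γ a b).natDegree : ℤ) := by positivity
    linarith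
  refine ⟨irrf hθ, w', hTyp, ⟨?_, ?_⟩, Γ, ⟨hΓs, ?_, ?_, ?_, ?_⟩, hchp⟩
  · -- gaps
    intro i j hij
    have hi : (i : ℕ) + 1 < 2 * g + 1 := by
      rw [← hij]
      exact j.2
    obtain ⟨a, ha, b, hb, hab⟩ := h8 g K (am K Γ) hΓsK hirr i ⟨2 * g - 1 - i, by omega⟩
      (by simp only; omega)
    have hab' : Γ a b ≠ 0 := by
      intro h0
      apply hab
      rw [am_apply, h0, map_zero]
    have t1 := hdeg0 a b hab'
    have t2 := hTyp.mono ha
    have t3 := hTyp.mono hb
    have t4 : (⟨2 * g - 1 - i, by omega⟩ : Fin (2 * g + 1)) = Fin.rev j := by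
      apply Fin.ext
      rw [Fin.val_rev]
      simp only
      omega
    rw [t4, hTyp.anti] at t3
    linarith
  · intro i hi
    by_contra hcon
    push Not at hcon
    apply hns
    refine h9 g k K L f θ hg hθ α ε hα hεli hg2' ?_ ⟨ρ, hρ⟩
    intro a b ha hb
    rw [hg1']
    by_contra hne
    have hab' : Γ a b ≠ 0 := by
      intro h0
      apply hne
      rw [h0, map_zero]
    have t1 := hdeg0 a b hab'
    have t2 := hTyp.mono (show a ≤ i from Fin.le_def.2 (by omega))
    have t3 := hTyp.mono (show b ≤ i from Fin.le_def.2 (by omega))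
    linarith
  · -- the trace
    have t1 := Matrix.trace_eq_neg_charpoly_coeff (Jm g k[X] * Γ)
    have t2 : (Jm g k[X] * Γ).charpoly = f := hchp
    rw [t2, Fintype.card_fin, Nat.add_sub_cancel, hF.ht.tr, neg_zero] at t1
    exact t1
  · intro i j
    rcases hΓd i j with t | t
    · exact Or.inl t
    · refine Or.inr ?_
      linarith
  · intro Q hQ
    rw [hchp]
    exact hF.con Q hQ
  · -- distinguished
    intro Q hQ
    obtain ⟨ξ, s, v, hs, hv, hcv⟩ := hT Q hQ
    obtain ⟨W, hW⟩ : ∃ W, W = V' * U := ⟨_, rfl⟩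
    have hWdet : IsUnit W.det := by
      rw [hW, Matrix.det_mul]
      exact hV'.mul hU
    have hWi : W⁻¹ * W = 1 := Matrix.nonsing_inv_mul _ hWdet
    have hεW : ε = actK (am K W) e := by
      rw [hε, he', ← actK_mul, ← am_mul, hW]
    have heW : e = actK (am K W⁻¹) ε := by
      rw [hεW, ← actK_mul, ← am_mul, hWi, am_one, actK_one]
    have hsumξ : ∑ i, algebraMap k[X] L (ξ i) * e i =
        ∑ j, algebraMap k[X] L ((ξ ᵥ* W⁻¹) j) * ε j := by
      rw [← sum_act (K := K), ← heW]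
    refine ⟨ξ ᵥ* W⁻¹, s, hs, ?_⟩
    intro m hm
    have hpow : ∀ j : ℕ, ∃ v : Fin (2 * g + 1) → k[X], Crd g θ v (θ ^ j) := fun j =>
      (hI _).1 (hθi.pow j)
    choose τ hτ using hpow
    have hf1 : algebraMap k[X] K (form Γ m (ξ ᵥ* W⁻¹)) =
        algebraMap k[X] K (∑ i : Fin (2 * g + 1), v i * τ (m + i) (Fin.last (2 * g))) := by
      rw [← am_form K, hform]
      have t1 : (∑ i, algebraMap K L (algebraMap k[X] K ((ξ ᵥ* W⁻¹) i)) * ε i) =
          ∑ i, algebraMap k[X] L (ξ i) * e i := by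
        rw [hsumξ]
        refine Finset.sum_congr rfl fun i _ => ?_
        rw [← IsScalarTower.algebraMap_apply]
      rw [t1, mul_div_assoc, hcv, Finset.mul_sum, map_sum, map_sum]
      refine Finset.sum_congr rfl fun i _ => ?_
      have t2 : θ ^ m * (algebraMap k[X] L (v i) * θ ^ (i : ℕ)) =
          algebraMap k[X] K (v i) • θ ^ (m + i) := by
        rw [← smul_alg, pow_add]
        ring
      rw [t2, map_smul, smul_eq_mul, map_mul, top_eq, crd_co hθ (hτ (m + i))]
    have hf2 := inj (k := k) (K := K) hf1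
    have hτ0 : τ m (Fin.last (2 * g)) = if m = 2 * g then 1 else 0 := by
      apply inj (k := k) (K := K)
      rw [← crd_co hθ (hτ m)]
      have t1 := co_pow hθ (Fin.last (2 * g)) ⟨m, by omega⟩
      simp only at t1
      rw [t1]
      by_cases hmg : m = 2 * g
      · rw [if_pos hmg, if_pos (Fin.ext (by simp [hmg])), map_one]
      · rw [if_neg hmg, if_neg (fun h' => hmg (by
          have := congrArg Fin.val h'
          simpa using this)), map_zero]
    have hf3 : form Γ m (ξ ᵥ* W⁻¹) - (if m = 2 * g then s ^ 2 else 0) =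
        ∑ i : Fin (2 * g + 1), (v i - if (i : ℕ) = 0 then s ^ 2 else 0) *
          τ (m + i) (Fin.last (2 * g)) := by
      rw [hf2]
      simp only [sub_mul, Finset.sum_sub_distrib]
      congr 1
      rw [Finset.sum_eq_single (0 : Fin (2 * g + 1))]
      · simp only [Fin.val_zero, if_true, add_zero]
        rw [hτ0]
        split_ifs <;> simp
      · intro i _ hi
        rw [if_neg (fun h' => hi (Fin.ext (by simpa using h'))), zero_mul]
      · intro h0
        exact absurd (Finset.mem_univ _) h0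
    rw [hf3]
    exact Finset.dvd_sum fun i _ => (hv i).mul_right _

/-- LB -/
theorem lb (h0 : S_INT) (h1 : S_RED) (h2 : S_WT) (h3 : S_NW) (h4 : S_NRM) (h5 : S_CHI)
    (h6 : S_DET) (h7 : S_UNI) (h8 : S_GAP) (h9 : S_SQ) : S_LB := by
  intro g k K L _ _ _ _ _ _ _ _ _ f θ N S h r hg hk hθ hr hS hF α e hα hsq hns hSD hT
  have hI := h0 g k K L f θ hθ hF.sq
  -- denominators
  obtain ⟨⟨c, hc⟩, hint⟩ := IsLocalization.exist_integer_multiples (nonZeroDivisors k[X])
    (Finset.univ : Finset (Option (Fin (2 * g + 1)) × Fin (2 * g + 1)))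
    (fun p => co hθ p.2 (Option.elim p.1 α e))
  have hc0 : c ≠ 0 := nonZeroDivisors.ne_zero hc
  have hint' : ∀ p : Option (Fin (2 * g + 1)) × Fin (2 * g + 1), ∃ q : k[X],
      algebraMap k[X] K q = algebraMap k[X] K c * co hθ p.2 (Option.elim p.1 α e) := by
    intro p
    obtain ⟨q, hq⟩ := hint p (Finset.mem_univ p)
    refine ⟨q, ?_⟩
    rw [hq, Algebra.smul_def]
  choose q hq using hint'
  obtain ⟨cL, hcL⟩ : ∃ cL : L, cL = algebraMap k[X] L c := ⟨_, rfl⟩
  have hcK : algebraMap k[X] K c ≠ 0 := by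
    rw [Ne, map_eq_zero_iff _ (inj (k := k) (K := K))]
    exact hc0
  have hcL' : cL = algebraMap K L (algebraMap k[X] K c) := by
    rw [hcL, ← IsScalarTower.algebraMap_apply]
  have hcL0 : cL ≠ 0 := by
    rw [hcL', Ne, map_eq_zero]
    exact hcK
  have hco : ∀ (i : Fin (2 * g + 1)) (x : L), co hθ i (cL * x) =
      algebraMap k[X] K c * co hθ i x := by
    intro i x
    rw [hcL', ← Algebra.smul_def, map_smul, smul_eq_mul]
  refine core h1 h2 h3 h4 h5 h6 h7 h8 h9 hg hk hθ hr hS hF hI (α := cL ^ 2 * α)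
    (e := fun i => cL * e i)
    (mul_ne_zero (pow_ne_zero 2 hcL0) hα) ?_ ?_ (sd_scale hcL0 hSD)
    (fun Q hQ => tv_scale hcL0 (hT Q hQ))
    (E := Matrix.of fun i j => q (some i, j)) (va := fun j => c * q (none, j)) ?_ ?_
  · obtain ⟨ρ, hρ⟩ := hsq
    refine ⟨Algebra.norm K cL * ρ, ?_⟩
    rw [map_mul, map_pow, hρ]
    ring
  · rintro ⟨y, hy⟩
    apply hns
    refine ⟨y / cL, ?_⟩
    field_simp
    linear_combination hy
  · intro i
    refine crd_of_co hθ fun j => ?_
    rw [hco]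
    exact (hq (some i, j)).symm
  · refine crd_of_co hθ fun j => ?_
    rw [pow_two, mul_assoc, hco, hco, map_mul, hq (none, j)]
    rfl

end Pool.Agent.N227.PJ
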