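import Pool.Agent.N352.PJ.Lat

/-!
# Project PJ, part LB (helper227): coordinates, Gram matrices, scaling

After the files of helper457 for cubics (project PP).
-/

set_option autoImplicit false
set_option linter.all false

open Polynomial Matrix
open scoped Classical

namespace Pool.Agent.N227.PJ

open Pool.Agent.N352.PJ

section one

variable {k K L : Type} [Field k] [Field K] [Algebra k[X] K] [IsFractionRing k[X] K]
  [Field L] [Algebra K L] [Algebra k[X] L] [IsScalarTower k[X] K L] {g : ℕ} {f : k[X][X]} {θ : L}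

lemma inj : Function.Injective (algebraMap k[X] K) := IsFractionRing.injective k[X] K

/-- coordinates -/
noncomputable def co (h : IsGen g K f θ) (i : Fin (2 * g + 1)) : L →ₗ[K] K := h.basis.coord i

lemma top_eq (h : IsGen g K f θ) : h.top = co h (Fin.last (2 * g)) := rfl

lemma co_pow (h : IsGen g K f θ) (i j : Fin (2 * g + 1)) :
    co h i (θ ^ (j : ℕ)) = if j = i then 1 else 0 := by
  rw [co, ← h.basis_apply, Module.Basis.coord_apply, Module.Basis.repr_self,
    Finsupp.single_apply]

lemma co_sum (h : IsGen g K f θ) (c : Fin (2 * g + 1) → K) (i : Fin (2 * g + 1)) :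
    co h i (∑ j, algebraMap K L (c j) * θ ^ (j : ℕ)) = c i := by
  rw [map_sum]
  have h1 : ∀ j : Fin (2 * g + 1), co h i (algebraMap K L (c j) * θ ^ (j : ℕ)) =
      c j * if j = i then 1 else 0 := fun j => by
    rw [← Algebra.smul_def, map_smul, co_pow, smul_eq_mul]
  simp only [h1]
  simp

lemma ext_co (h : IsGen g K f θ) (x : L) :
    x = ∑ j, algebraMap K L (co h j x) * θ ^ (j : ℕ) := by
  obtain ⟨c, hc⟩ := h.gen x
  have h1 : ∀ j, co h j x = c j := fun j => by
    rw [hc, co_sum]
  simp only [h1]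
  exact hc

lemma crd_co (h : IsGen g K f θ) {v : Fin (2 * g + 1) → k[X]} {x : L} (hv : Crd g θ v x)
    (i : Fin (2 * g + 1)) : co h i x = algebraMap k[X] K (v i) := by
  have e : x = ∑ j, algebraMap K L (algebraMap k[X] K (v j)) * θ ^ (j : ℕ) := by
    rw [hv]
    refine Finset.sum_congr rfl fun j _ => ?_
    rw [← IsScalarTower.algebraMap_apply]
  rw [e, co_sum]

lemma crd_of_co (h : IsGen g K f θ) {v : Fin (2 * g + 1) → k[X]} {x : L}
    (hv : ∀ i, co h i x = algebraMap k[X] K (v i)) : Crd g θ v x := by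
  unfold Crd
  conv_lhs => rw [ext_co h x]
  refine Finset.sum_congr rfl fun j _ => ?_
  rw [hv j, ← IsScalarTower.algebraMap_apply]

/-! ### Gram matrices -/

/-- the matrix of the bilinear form -/
noncomputable def gm {n : ℕ} (φ : L →ₗ[K] K) (α : L) (e : Fin n → L) : Matrix (Fin n) (Fin n) K :=
  fun i j => φ (e i * e j / α)

lemma gm_apply {n : ℕ} (φ : L →ₗ[K] K) (α : L) (e : Fin n → L) (i j : Fin n) :
    gm φ α e i j = φ (e i * e j / α) := rfl

/-- change of the basis -/
noncomputable def actK {n : ℕ} (P : Matrix (Fin n) (Fin n) K) (e : Fin n → L) : Fin n → L :=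
  fun i => ∑ j, P i j • e j

lemma actK_mul {n : ℕ} (P R : Matrix (Fin n) (Fin n) K) (e : Fin n → L) :
    actK (P * R) e = actK P (actK R e) := by
  funext i
  unfold actK
  simp only [Matrix.mul_apply, Finset.sum_smul, Finset.smul_sum, smul_smul]
  rw [Finset.sum_comm]

lemma actK_one {n : ℕ} (e : Fin n → L) : actK (1 : Matrix (Fin n) (Fin n) K) e = e := by
  funext i
  unfold actK
  simp [Matrix.one_apply]

lemma mul_actK {n : ℕ} (P : Matrix (Fin n) (Fin n) K) (e : Fin n → L) (α : L) (i j : Fin n) :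
    actK P e i * actK P e j / α = ∑ l, ∑ m, (P i l * P j m) • (e l * e m / α) := by
  unfold actK
  rw [Finset.sum_mul_sum, Finset.sum_div]
  refine Finset.sum_congr rfl fun l _ => ?_
  rw [Finset.sum_div]
  refine Finset.sum_congr rfl fun m _ => ?_
  simp only [Algebra.smul_def, map_mul]
  ring

lemma gm_actK {n : ℕ} (φ : L →ₗ[K] K) (α : L) (P : Matrix (Fin n) (Fin n) K) (e : Fin n → L) :
    gm φ α (actK P e) = P * gm φ α e * Pᵀ := by
  ext i j
  rw [gm_apply, mul_actK, map_sum]
  simp only [Matrix.mul_apply, Matrix.transpose_apply, Finset.sum_mul, map_sum, map_smul,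
    smul_eq_mul, gm_apply]
  rw [Finset.sum_comm]
  refine Finset.sum_congr rfl fun m _ => Finset.sum_congr rfl fun l _ => ?_
  ring

/-- multiplication with `θ` in the form -/
noncomputable def tt (h : IsGen g K f θ) : L →ₗ[K] K := h.top ∘ₗ LinearMap.mulLeft K θ

lemma tt_apply (h : IsGen g K f θ) (x : L) : tt h x = h.top (θ * x) := rfl

/-- the coordinate matrix -/
noncomputable def cm (h : IsGen g K f θ) (e : Fin (2 * g + 1) → L) : Mt g K :=
  fun i j => co h j (e i)

lemma gm_symm {n : ℕ} (φ : L →ₗ[K] K) (α : L) (e : Fin n → L) : (gm φ α e)ᵀ = gm φ α e := by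
  ext i j
  rw [Matrix.transpose_apply, gm_apply, gm_apply, mul_comm]

lemma smul_alg (p : k[X]) (x : L) : algebraMap k[X] L p * x = algebraMap k[X] K p • x := by
  rw [Algebra.smul_def, ← IsScalarTower.algebraMap_apply]

lemma li_cm (h : IsGen g K f θ) {e : Fin (2 * g + 1) → L} (he : LinearIndependent K e) :
    (cm h e).det ≠ 0 := by
  intro h0
  obtain ⟨v, hv, hv0⟩ := Matrix.exists_vecMul_eq_zero_iff.2 h0
  refine hv ?_
  have h1 : ∑ i, v i • e i = 0 := by
    rw [ext_co h (∑ i, v i • e i)]
    refine Finset.sum_eq_zero fun j _ => ?_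
    have h2 := congrFun hv0 j
    have h3 : ∑ i, v i * cm h e i j = 0 := h2
    have h4 : co h j (∑ i, v i • e i) = 0 := by
      rw [map_sum, ← h3]
      refine Finset.sum_congr rfl fun i _ => ?_
      rw [map_smul, smul_eq_mul]
      rfl
    rw [h4, map_zero, zero_mul]
  funext i
  exact Fintype.linearIndependent_iff.1 he v h1 i

lemma norm_mul_inv {α : L} (hα : α ≠ 0) :
    Algebra.norm K α * Algebra.norm K α⁻¹ = 1 := by
  rw [← map_mul, mul_inv_cancel₀ hα, map_one]

lemma norm_ne {α : L} (hα : α ≠ 0) : Algebra.norm K α ≠ 0 :=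
  left_ne_zero_of_mul_eq_one (norm_mul_inv hα)

end one

section am

variable {k : Type} [Field k] (K : Type) [Field K] [Algebra k[X] K]

/-- scalar extension of a matrix -/
noncomputable def am {n : ℕ} (U : Matrix (Fin n) (Fin n) k[X]) : Matrix (Fin n) (Fin n) K :=
  U.map (algebraMap k[X] K)

lemma am_apply {n : ℕ} (U : Matrix (Fin n) (Fin n) k[X]) (i j : Fin n) :
    am K U i j = algebraMap k[X] K (U i j) := rfl

lemma am_mul {n : ℕ} (U V : Matrix (Fin n) (Fin n) k[X]) : am K (U * V) = am K U * am K V :=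
  Matrix.map_mul

lemma am_one {n : ℕ} : am K (1 : Matrix (Fin n) (Fin n) k[X]) = 1 :=
  Matrix.map_one _ (map_zero _) (map_one _)

lemma am_pow {n : ℕ} (U : Matrix (Fin n) (Fin n) k[X]) (m : ℕ) : am K (U ^ m) = am K U ^ m := by
  induction m with
  | zero => rw [pow_zero, pow_zero, am_one]
  | succ m ih => rw [pow_succ, pow_succ, am_mul, ih]

lemma am_transpose {n : ℕ} (U : Matrix (Fin n) (Fin n) k[X]) : am K Uᵀ = (am K U)ᵀ := rfl

lemma am_det {n : ℕ} (U : Matrix (Fin n) (Fin n) k[X]) :
    (am K U).det = algebraMap k[X] K U.det := by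
  rw [RingHom.map_det]
  rfl

lemma am_J (g : ℕ) : am K (Jm g k[X]) = Jm g K := by
  ext i j
  rw [am_apply]
  simp only [Jm, Matrix.of_apply]
  split_ifs <;> simp

lemma am_chp {g : ℕ} (B : Mt g k[X]) : chp (am K B) = (chp B).map (algebraMap k[X] K) := by
  unfold chp
  rw [← am_J (k := k) K g, ← am_mul, ← Matrix.charpoly_map]
  rfl

lemma am_form {g : ℕ} (B : Mt g k[X]) (m : ℕ) (ξ : Fin (2 * g + 1) → k[X]) :
    form (am K B) m (fun i => algebraMap k[X] K (ξ i)) = algebraMap k[X] K (form B m ξ) := by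
  unfold form
  rw [← am_J (k := k) K g, ← am_mul, ← am_pow, ← am_mul]
  simp only [dotProduct, Matrix.mulVec, map_sum, map_mul, am_apply]

end am

section three

variable {k K L : Type} [Field k] [Field K] [Algebra k[X] K] [IsFractionRing k[X] K]
  [Field L] [Algebra K L] [Algebra k[X] L] [IsScalarTower k[X] K L] {g : ℕ} {f : k[X][X]} {θ : L}

lemma am_inj {n : ℕ} {U V : Matrix (Fin n) (Fin n) k[X]} (h : am K U = am K V) : U = V := by
  refine Matrix.ext fun i j => inj (k := k) (K := K) ?_
  exact congrFun (congrFun h i) j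

lemma cm_actK (h : IsGen g K f θ) (P : Mt g K) (e : Fin (2 * g + 1) → L) :
    cm h (actK P e) = P * cm h e := by
  refine Matrix.ext fun i j => ?_
  rw [Matrix.mul_apply]
  unfold cm actK
  rw [map_sum]
  refine Finset.sum_congr rfl fun l _ => ?_
  rw [map_smul, smul_eq_mul]

lemma cm_crd (h : IsGen g K f θ) {E : Mt g k[X]} {e : Fin (2 * g + 1) → L}
    (hE : ∀ i, Crd g θ (E i) (e i)) : cm h e = am K E := by
  refine Matrix.ext fun i j => ?_
  exact crd_co h (hE i) j

lemma crd_cm (h : IsGen g K f θ) {E : Mt g k[X]} {e : Fin (2 * g + 1) → L}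
    (hE : cm h e = am K E) (i : Fin (2 * g + 1)) : Crd g θ (E i) (e i) :=
  crd_of_co h fun j => congrFun (congrFun hE i) j

lemma li_of_cm (h : IsGen g K f θ) {e : Fin (2 * g + 1) → L} (he : (cm h e).det ≠ 0) :
    LinearIndependent K e := by
  rw [Fintype.linearIndependent_iff]
  intro c hc
  have h1 : c ᵥ* cm h e = 0 := by
    funext j
    have h2 := congrArg (co h j) hc
    rw [map_sum, map_zero] at h2
    simp only [map_smul, smul_eq_mul] at h2
    exact h2
  have h2 := Matrix.eq_zero_of_vecMul_eq_zero he h1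
  intro i
  exact congrFun h2 i

lemma int_act {n : ℕ} (U : Matrix (Fin n) (Fin n) k[X]) {e : Fin n → L} {α : L}
    (he : ∀ i j, IsIntegral k[X] (e i * e j / α)) (i j : Fin n) :
    IsIntegral k[X] (actK (am K U) e i * actK (am K U) e j / α) := by
  rw [mul_actK]
  refine IsIntegral.sum _ fun l _ => IsIntegral.sum _ fun m _ => ?_
  rw [am_apply, am_apply, ← map_mul, ← smul_alg]
  exact isIntegral_algebraMap.mul (he l m)

lemma gm_am {n : ℕ} (φ : L →ₗ[K] K) (α : L) (U : Matrix (Fin n) (Fin n) k[X]) {e : Fin n → L}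
    {G : Matrix (Fin n) (Fin n) k[X]} (hG : gm φ α e = am K G) :
    gm φ α (actK (am K U) e) = am K (U * G * Uᵀ) := by
  rw [gm_actK, hG, am_mul, am_mul, am_transpose]

lemma sum_act {n : ℕ} (P : Matrix (Fin n) (Fin n) k[X]) (f : Fin n → L) (ξ : Fin n → k[X]) :
    ∑ i, algebraMap k[X] L (ξ i) * actK (am K P) f i =
      ∑ j, algebraMap k[X] L ((ξ ᵥ* P) j) * f j := by
  unfold actK
  simp only [Matrix.vecMul, dotProduct, map_sum, map_mul, Finset.sum_mul, Finset.mul_sum,
    am_apply]
  rw [Finset.sum_comm]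
  refine Finset.sum_congr rfl fun j _ => Finset.sum_congr rfl fun i _ => ?_
  rw [← smul_alg]
  ring

end three

section modQ

variable {k : Type} [Field k]

/-- degrees -/
def DB (n : ℤ) (P : k[X]) : Prop := P = 0 ∨ (P.natDegree : ℤ) ≤ n

lemma DB.add {n : ℤ} {P R : k[X]} (hP : DB n P) (hR : DB n R) : DB n (P + R) := by
  rcases hP with rfl | hP
  · rwa [zero_add]
  · rcases hR with rfl | hR
    · rw [add_zero]
      exact Or.inr hP
    · refine Or.inr ?_
      have h1 := Polynomial.natDegree_add_le P R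
      have h2 : ((P + R).natDegree : ℤ) ≤ max (P.natDegree : ℤ) R.natDegree := by
        exact_mod_cast h1
      exact h2.trans (max_le hP hR)

lemma DB.mul {m n : ℤ} {P R : k[X]} (hP : DB m P) (hR : DB n R) : DB (m + n) (P * R) := by
  rcases hP with rfl | hP
  · rw [zero_mul]
    exact Or.inl rfl
  · rcases hR with rfl | hR
    · rw [mul_zero]
      exact Or.inl rfl
    · refine Or.inr ?_
      have h1 := Polynomial.natDegree_mul_le (p := P) (q := R)
      have h2 : ((P * R).natDegree : ℤ) ≤ (P.natDegree : ℤ) + R.natDegree := by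
        exact_mod_cast h1
      linarith

lemma DB.sum {n : ℤ} {ι : Type} (s : Finset ι) (f : ι → k[X]) (h : ∀ i ∈ s, DB n (f i)) :
    DB n (∑ i ∈ s, f i) := by
  induction s using Finset.induction_on with
  | empty => exact Or.inl (by simp)
  | insert i s hi ih =>
    rw [Finset.sum_insert hi]
    exact (h i (Finset.mem_insert_self _ _)).add
      (ih fun j hj => h j (Finset.mem_insert_of_mem hj))

lemma DB.congr {m n : ℤ} {P : k[X]} (h : DB m P) (hmn : m = n) : DB n P := hmn ▸ h

lemma le_wt {n : ℕ} (d : Fin n → ℕ) (v : Fin n → k[X]) (j : Fin n) (hj : v j ≠ 0) :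
    (v j).natDegree + d j ≤ wtn d v := by
  unfold wtn
  have h1 := Finset.le_sup (f := fun j => if v j = 0 then 0 else (v j).natDegree + d j)
    (Finset.mem_univ j)
  simp only [if_neg hj] at h1
  exact h1

end modQ

section scale

variable {k K L : Type} [Field k] [Field K] [Algebra k[X] K] [IsFractionRing k[X] K]
  [Field L] [Algebra K L] [Algebra k[X] L] [IsScalarTower k[X] K L] {g : ℕ} {θ : L}

lemma scale_eq {c x y α : L} (hc : c ≠ 0) : c * x * (c * y) / (c ^ 2 * α) = x * y / α := by
  rw [show c * x * (c * y) = c ^ 2 * (x * y) by ring]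
  exact mul_div_mul_left _ _ (pow_ne_zero 2 hc)

lemma sd_scale {e : Fin (2 * g + 1) → L} {α c : L} (hc : c ≠ 0) (h : SDn g k K e α) :
    SDn g k K (fun i => c * e i) (c ^ 2 * α) where
  li := by
    rw [Fintype.linearIndependent_iff]
    intro g hg
    refine Fintype.linearIndependent_iff.1 h.li g ?_
    have h1 : c * ∑ i, g i • e i = 0 := by
      rw [← hg, Finset.mul_sum]
      exact Finset.sum_congr rfl fun i _ => mul_smul_comm _ _ _
    exact (mul_eq_zero.1 h1).resolve_left hc
  int i j := by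
    rw [scale_eq hc]
    exact h.int i j
  dual y hy := by
    obtain ⟨v, hv⟩ := h.dual (y / c) fun i => by
      have h1 := hy i
      have h2 : c * e i * y / (c ^ 2 * α) = e i * (y / c) / α := by
        have h3 : y = c * (y / c) := by field_simp
        conv_lhs => rw [h3]
        exact scale_eq hc
      rwa [h2] at h1
    refine ⟨v, ?_⟩
    have h3 : y = c * (y / c) := by field_simp
    rw [h3, hv, Finset.mul_sum]
    refine Finset.sum_congr rfl fun i _ => ?_
    ring

lemma tv_scale {Q : k[X]} {e : Fin (2 * g + 1) → L} {α c : L} (hc : c ≠ 0)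
    (h : TV g Q θ e α) : TV g Q θ (fun i => c * e i) (c ^ 2 * α) := by
  obtain ⟨ξ, s, v, h1, h2, hv⟩ := h
  refine ⟨ξ, s, v, h1, h2, ?_⟩
  have h3 : ∑ i, algebraMap k[X] L (ξ i) * (c * e i) =
      c * ∑ i, algebraMap k[X] L (ξ i) * e i := by
    rw [Finset.mul_sum]
    exact Finset.sum_congr rfl fun i _ => by ring
  rw [h3, mul_pow, mul_div_mul_left _ _ (pow_ne_zero 2 hc)]
  exact hv

end scale

end Pool.Agent.N227.PJ
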